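import Pool.Agent.H113Z.Dist.Defs

/-! Gluing a locally finite family of compactly supported increasing `C^2` bijections. -/

namespace Pool.Agent.H113Z.Dist
open Filter Topology Set

namespace Absorb

theorem presv {f : Pm} {a b : ℝ} (hm : StrictMono f) (hs : Supp f a b) (x : ℝ) :
    f x ∈ Icc a b ↔ x ∈ Icc a b := by
  have ha : f a = a := hs a (Or.inl le_rfl)
  have hb : f b = b := hs b (Or.inr le_rfl)
  constructor
  · rintro ⟨h1, h2⟩
    exact ⟨hm.le_iff_le.mp (ha.symm ▸ h1), hm.le_iff_le.mp (hb.symm ▸ h2)⟩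
  · rintro ⟨h1, h2⟩
    exact ⟨ha ▸ hm.monotone h1, hb ▸ hm.monotone h2⟩

theorem presv_inv {f : Pm} {a b : ℝ} (hm : StrictMono f) (hs : Supp f a b) (x : ℝ) :
    f⁻¹ x ∈ Icc a b ↔ x ∈ Icc a b := by
  rw [← presv hm hs (f⁻¹ x)]
  simp

open Classical in
/-- the glued map -/
noncomputable def glue {J : Type} (a b : J → ℝ) (f : J → Pm) (x : ℝ) : ℝ :=
  if h : ∃ j, x ∈ Icc (a j) (b j) then f (Classical.choose h) x else x

theorem glue_in {J : Type} {a b : J → ℝ}
    (hd : ∀ j j', j ≠ j' → ∀ x ∈ Icc (a j) (b j), x ∉ Icc (a j') (b j')) (f : J → Pm)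
    {j : J} {x : ℝ} (hx : x ∈ Icc (a j) (b j)) : glue a b f x = f j x := by
  have h : ∃ j, x ∈ Icc (a j) (b j) := ⟨j, hx⟩
  have h1 : Classical.choose h = j := by
    by_contra hne
    exact hd _ _ hne x (Classical.choose_spec h) hx
  unfold glue
  rw [dif_pos h, h1]

theorem glue_out {J : Type} {a b : J → ℝ} (f : J → Pm) {x : ℝ}
    (hx : ∀ j, x ∉ Icc (a j) (b j)) : glue a b f x = x := by
  unfold glue
  rw [dif_neg (by rintro ⟨j, hj⟩; exact hx j hj)]

theorem mvt_bd {f : Pm} {a b M : ℝ} (hf : G2 f) (hs : Supp f a b) (ha : 0 < a)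
    (hM : ∀ x, |D 2 f x| ≤ M) {y : ℝ} (hy : 0 ≤ y) :
    |deriv f y - 1| ≤ M * y ∧ |f y - y| ≤ M * y * y := by
  have hM0 : 0 ≤ M := (abs_nonneg _).trans (hM 0)
  have hD : D 2 f = deriv (deriv f) := by
    show iteratedDeriv (1 + 1) f = _
    rw [iteratedDeriv_succ, iteratedDeriv_one]
  have hd1 : Differentiable ℝ f := hf.1.differentiable (by norm_num)
  have hd2 : Differentiable ℝ (deriv f) := by
    have := hf.1.differentiable_iteratedDeriv 1 (by norm_num)
    rwa [iteratedDeriv_one] at this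
  have h0 : (f : ℝ → ℝ) =ᶠ[𝓝 0] id := by
    filter_upwards [Iio_mem_nhds ha] with x hx
    exact hs x (Or.inl (le_of_lt hx))
  have hd0 : deriv f 0 = 1 := by rw [h0.deriv_eq]; simp
  have hf0 : f 0 = 0 := hs 0 (Or.inl ha.le)
  have h1 : ∀ z, 0 ≤ z → |deriv f z - 1| ≤ M * z := by
    intro z hz
    have := Convex.norm_image_sub_le_of_norm_deriv_le (𝕜 := ℝ) (f := deriv f) (s := univ)
      (x := 0) (y := z) (C := M) (fun x _ => hd2 x)
      (fun x _ => by rw [← hD]; exact hM x) convex_univ trivial trivial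
    rw [hd0, sub_zero, Real.norm_eq_abs, Real.norm_eq_abs, abs_of_nonneg hz] at this
    exact this
  refine ⟨h1 y hy, ?_⟩
  have h2 := Convex.norm_image_sub_le_of_norm_deriv_le (𝕜 := ℝ) (f := fun x => f x - x)
    (s := Icc 0 y) (x := 0) (y := y) (C := M * y)
    (fun x _ => (hd1 x).sub differentiableAt_id)
    (fun x hx => by
      have : deriv (fun x => f x - x) x = deriv f x - 1 :=
        ((hd1 x).hasDerivAt.sub (hasDerivAt_id x)).deriv
      rw [this, Real.norm_eq_abs]
      exact (h1 x hx.1).trans (mul_le_mul_of_nonneg_left hx.2 hM0))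
    (convex_Icc 0 y) (left_mem_Icc.mpr hy) (right_mem_Icc.mpr hy)
  simp only [hf0, sub_zero, Real.norm_eq_abs, abs_of_nonneg hy] at h2
  exact h2

theorem exists_glue {J : Type} (a b : J → ℝ) (f : J → Pm)
    (h1 : ∀ j, 0 < a j ∧ a j ≤ b j ∧ b j ≤ 2 * a j) (h2 : ∀ R, {j | a j ≤ R}.Finite)
    (hd : ∀ j j', j ≠ j' → ∀ x ∈ Icc (a j) (b j), x ∉ Icc (a j') (b j'))
    (hs : Sm a b f) :
    ∃ g : Pm, StrictMono g ∧ OC g 1 0 ∧ (∀ j, ∀ x ∈ Icc (a j) (b j), g x = f j x) ∧
      ∀ x, (∀ j, x ∉ Icc (a j) (b j)) → g x = x := by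
  obtain ⟨hs1, hs2⟩ := hs
  let g : Pm :=
    { toFun := glue a b f
      invFun := glue a b (fun j => (f j)⁻¹)
      left_inv := by
        intro x
        by_cases hx : ∃ j, x ∈ Icc (a j) (b j)
        · obtain ⟨j, hj⟩ := hx
          rw [glue_in hd f hj, glue_in hd _ ((presv (hs1 j).1.2 (hs1 j).2 x).mpr hj)]
          simp
        · push Not at hx
          rw [glue_out f hx, glue_out _ hx]
      right_inv := by
        intro x
        by_cases hx : ∃ j, x ∈ Icc (a j) (b j)
        · obtain ⟨j, hj⟩ := hx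
          rw [glue_in hd _ hj, glue_in hd f ((presv_inv (hs1 j).1.2 (hs1 j).2 x).mpr hj)]
          simp
        · push Not at hx
          rw [glue_out _ hx, glue_out f hx] }
  have gin : ∀ j, ∀ x ∈ Icc (a j) (b j), g x = f j x := fun j x hx => glue_in hd f hx
  have gout : ∀ x, (∀ j, x ∉ Icc (a j) (b j)) → g x = x := fun x hx => glue_out f hx
  have gmem : ∀ j, ∀ x ∈ Icc (a j) (b j), g x ∈ Icc (a j) (b j) := by
    intro j x hx
    rw [gin j x hx]
    exact (presv (hs1 j).1.2 (hs1 j).2 x).mpr hx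
  have hloc0 : ∀ x0 : ℝ, ∀ᶠ x in 𝓝 x0, ∀ j, x0 ∉ Icc (a j) (b j) → x ∉ Icc (a j) (b j) := by
    intro x0
    have e1 : ∀ᶠ x in 𝓝 x0, ∀ j ∈ {j | a j ≤ x0 + 1},
        x0 ∉ Icc (a j) (b j) → x ∉ Icc (a j) (b j) := by
      rw [eventually_all_finite (h2 (x0 + 1))]
      intro j _
      by_cases hj : x0 ∈ Icc (a j) (b j)
      · exact Eventually.of_forall fun x h => absurd hj h
      · filter_upwards [isClosed_Icc.isOpen_compl.mem_nhds hj] with x hx _
        exact hx
    filter_upwards [e1, Iio_mem_nhds (lt_add_one x0)] with x hx hx' j hj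
    by_cases hj' : a j ≤ x0 + 1
    · exact hx j hj' hj
    · intro h
      have h3 : x < x0 + 1 := hx'
      exact hj' (by linarith [h.1])
  have hloc : ∀ x0 : ℝ, (∃ j, x0 ∈ Icc (a j) (b j) ∧ (g : ℝ → ℝ) =ᶠ[𝓝 x0] f j) ∨
      (g : ℝ → ℝ) =ᶠ[𝓝 x0] id := by
    intro x0
    by_cases hx : ∃ j, x0 ∈ Icc (a j) (b j)
    · obtain ⟨j, hj⟩ := hx
      refine Or.inl ⟨j, hj, ?_⟩
      filter_upwards [hloc0 x0] with x hx
      by_cases hxj : x ∈ Icc (a j) (b j)
      · exact gin j x hxj
      · rw [gout x, (hs1 j).2 x]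
        · by_contra hc
          push Not at hc
          exact hxj ⟨hc.1.le, hc.2.le⟩
        · intro j'
          by_cases hjj : j = j'
          · exact hjj ▸ hxj
          · exact hx j' (hd j j' hjj x0 hj)
    · push Not at hx
      refine Or.inr ?_
      filter_upwards [hloc0 x0] with x hx'
      exact gout x fun j => hx' j (hx j)
  have hmono : StrictMono g := by
    intro x y hxy
    by_cases hx : ∃ j, x ∈ Icc (a j) (b j)
    · obtain ⟨j, hj⟩ := hx
      by_cases hy : y ∈ Icc (a j) (b j)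
      · rw [gin j x hj, gin j y hy]
        exact (hs1 j).1.2 hxy
      · have hby : b j < y := by
          by_contra hc
          exact hy ⟨hj.1.trans hxy.le, not_lt.mp hc⟩
        have hgx := (gmem j x hj).2
        by_cases hy' : ∃ j', y ∈ Icc (a j') (b j')
        · obtain ⟨j', hj'⟩ := hy'
          have hne : j ≠ j' := fun h => hy (h ▸ hj')
          have h3 : b j < a j' := by
            by_contra hc
            exact hd j j' hne (b j) ⟨(h1 j).2.1, le_rfl⟩ ⟨not_lt.mp hc, hby.le.trans hj'.2⟩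
          have := (gmem j' y hj').1
          linarith
        · push Not at hy'
          rw [gout y hy']
          linarith
    · push Not at hx
      rw [gout x hx]
      by_cases hy' : ∃ j', y ∈ Icc (a j') (b j')
      · obtain ⟨j', hj'⟩ := hy'
        have h3 : x < a j' := by
          by_contra hc
          exact hx j' ⟨not_lt.mp hc, hxy.le.trans hj'.2⟩
        have := (gmem j' y hj').1
        linarith
      · push Not at hy'
        rw [gout y hy']
        exact hxy
  have hcd : ContDiff ℝ 2 g := by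
    rw [contDiff_iff_contDiffAt]
    intro x
    rcases hloc x with ⟨j, -, h⟩ | h
    · exact (hs1 j).1.1.contDiffAt.congr_of_eventuallyEq h
    · exact contDiffAt_id.congr_of_eventuallyEq h
  have hmain : ∀ ε > 0, ∀ᶠ y in atTop, |g y - 1 * y - 0| ≤ ε ∧ |y * (deriv g y - 1)| ≤ ε ∧
      |y ^ 2 * D 2 g y| ≤ ε := by
    intro ε hε
    obtain ⟨R, hR⟩ := hs2 (ε / 4) (by positivity)
    filter_upwards [eventually_ge_atTop (2 * R), eventually_ge_atTop 0] with y hy hy0
    rcases hloc y with ⟨j, hj, h⟩ | h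
    · obtain ⟨ha, -, hb⟩ := h1 j
      have hya : y ≤ 2 * a j := hj.2.trans hb
      have hM := hR j (by linarith)
      obtain ⟨m1, m2⟩ := mvt_bd (hs1 j).1 (hs1 j).2 ha hM hy0
      have hkey : ε / 4 / a j ^ 2 * y * y ≤ ε := by
        have h3 : y * y ≤ 4 * a j ^ 2 := by nlinarith
        have h4 : ε / 4 / a j ^ 2 * y * y = ε * (y * y / (4 * a j ^ 2)) := by
          field_simp
        rw [h4]
        have h5 : y * y / (4 * a j ^ 2) ≤ 1 := (div_le_one (by positivity)).mpr h3
        nlinarith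
      refine ⟨?_, ?_, ?_⟩
      · rw [h.eq_of_nhds, one_mul, sub_zero]
        exact m2.trans hkey
      · rw [h.deriv_eq, abs_mul, abs_of_nonneg hy0]
        have := mul_le_mul_of_nonneg_left m1 hy0
        linarith
      · have e : D 2 g y = D 2 (f j) y := h.iteratedDeriv_eq 2
        rw [e, abs_mul, abs_of_nonneg (sq_nonneg y)]
        have := mul_le_mul_of_nonneg_left (hM y) (sq_nonneg y)
        nlinarith
    · refine ⟨?_, ?_, ?_⟩
      · rw [h.eq_of_nhds]; simpa using hε.le
      · rw [h.deriv_eq]; simpa using hε.le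
      · have e : D 2 g y = D 2 id y := h.iteratedDeriv_eq 2
        have e2 : D 2 (id : ℝ → ℝ) y = 0 := by
          show iteratedDeriv (1 + 1) id y = 0
          rw [iteratedDeriv_succ, iteratedDeriv_one]
          have : deriv (id : ℝ → ℝ) = fun _ => 1 := by funext x; simp
          rw [this]; simp
        rw [e, e2]; simpa using hε.le
  have hT : ∀ φ : ℝ → ℝ, (∀ ε > 0, ∀ᶠ y in atTop, |φ y| ≤ ε) → Tendsto φ atTop (𝓝 0) := by
    intro φ h
    rw [Metric.tendsto_nhds]
    intro ε hε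
    filter_upwards [h (ε / 2) (by positivity)] with y hy
    rw [Real.dist_eq, sub_zero]
    linarith
  refine ⟨g, hmono, ⟨⟨0, hcd.contDiffOn⟩, hT _ fun ε hε => ?_, hT _ fun ε hε => ?_,
    hT _ fun ε hε => ?_⟩, gin, gout⟩
  · filter_upwards [hmain ε hε] with y hy using hy.1
  · filter_upwards [hmain ε hε] with y hy using hy.2.1
  · filter_upwards [hmain ε hε] with y hy using hy.2.2

end Absorb

end Pool.Agent.H113Z.Dist
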