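import Pool.Agent.H192Z.Abs.Glue

/-! Storing countably many families in two maps and extracting them by conjugation. -/

namespace Pool.Agent.H113Z.Dist
open Filter Topology Set

namespace Absorb

theorem one_le_lam : 1 ≤ lam := by
  unfold lam
  have : 0 ≤ √2 := Real.sqrt_nonneg 2
  linarith

theorem SL_pow (n : ℕ) (x : ℝ) : (SL ^ n) x = lam ^ n * x := by
  induction n with
  | zero => simp
  | succ n ih => rw [pow_succ', Equiv.Perm.mul_apply, SL_apply, ih, pow_succ', mul_assoc]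

theorem SL_pow_inv (n : ℕ) (x : ℝ) : (SL ^ n)⁻¹ x = (lam ^ n)⁻¹ * x := by
  have h : (lam ^ n) ≠ 0 := (pow_pos lam_pos n).ne'
  rw [Equiv.Perm.inv_eq_iff_eq, SL_pow, ← mul_assoc, mul_inv_cancel₀ h, one_mul]

/-- conjugate by a power of the dilation -/
noncomputable def cj (n : ℕ) (f : Pm) : Pm := SL ^ n * f * (SL ^ n)⁻¹

theorem cj_apply (n : ℕ) (f : Pm) (x : ℝ) : cj n f x = lam ^ n * f ((lam ^ n)⁻¹ * x) := by
  unfold cj
  rw [Equiv.Perm.mul_apply, Equiv.Perm.mul_apply, SL_pow, SL_pow_inv]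

theorem cj_coe (n : ℕ) (f : Pm) :
    (cj n f : ℝ → ℝ) = fun x => lam ^ n * f ((lam ^ n)⁻¹ * x) := funext (cj_apply n f)

theorem cj_G2 (n : ℕ) {f : Pm} (hf : G2 f) : G2 (cj n f) := by
  have hp : 0 < lam ^ n := pow_pos lam_pos n
  constructor
  · rw [cj_coe]
    exact contDiff_const.mul (hf.1.comp (contDiff_const.mul contDiff_id))
  · intro x y hxy
    rw [cj_apply, cj_apply]
    exact mul_lt_mul_of_pos_left (hf.2 (mul_lt_mul_of_pos_left hxy (inv_pos.mpr hp))) hp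

theorem cj_supp (n : ℕ) {f : Pm} {a b : ℝ} (hf : Supp f a b) :
    Supp (cj n f) (lam ^ n * a) (lam ^ n * b) := by
  have hp : 0 < lam ^ n := pow_pos lam_pos n
  intro x hx
  rw [cj_apply, hf, ← mul_assoc, mul_inv_cancel₀ hp.ne', one_mul]
  rcases hx with hx | hx
  · exact Or.inl ((inv_mul_le_iff₀ hp).mpr hx)
  · exact Or.inr ((le_inv_mul_iff₀ hp).mpr hx)

theorem cj_D2 (n : ℕ) {f : Pm} (hf : G2 f) (x : ℝ) :
    D 2 (cj n f) x = (lam ^ n)⁻¹ * D 2 f ((lam ^ n)⁻¹ * x) := by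
  have hp : 0 < lam ^ n := pow_pos lam_pos n
  rw [cj_coe]
  show iteratedDeriv 2 (fun x => lam ^ n * (fun x => f ((lam ^ n)⁻¹ * x)) x) x = _
  rw [iteratedDeriv_const_mul_field, iteratedDeriv_comp_const_mul (n := 2) hf.1]
  show lam ^ n * ((lam ^ n)⁻¹ ^ 2 * D 2 f ((lam ^ n)⁻¹ * x)) = _
  field_simp

theorem mem_scaled (s n : ℕ) (a b x : ℝ) :
    (SL ^ s) x ∈ Icc (lam ^ n * a) (lam ^ n * b) ↔ lam ^ ((s : ℤ) - n) * x ∈ Icc a b := by
  have hp : 0 < lam ^ n := pow_pos lam_pos n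
  have e : lam ^ ((s : ℤ) - n) * x = (lam ^ n)⁻¹ * (lam ^ s * x) := by
    rw [zpow_sub₀ lam_pos.ne', zpow_natCast, zpow_natCast]
    field_simp
  rw [SL_pow, e, mem_Icc, mem_Icc, le_inv_mul_iff₀ hp, inv_mul_le_iff₀ hp]

/-- separation clause at level `m` -/
def Cl {ν : Type} (lo hi : ν → ℝ) (m : ℕ) (k : ν) : Prop :=
  ∀ k', ∀ d : ℤ, |d| ≤ ((4 * 3 ^ m : ℕ) : ℤ) → (d ≠ 0 ∨ k ≠ k') →
    ∀ x ∈ Icc (lo k) (hi k), lam ^ d * x ∉ Icc (lo k') (hi k')

theorem sep {ν : Type} {lo hi : ν → ℝ} {m : ℕ} {k k' : ν} {e e' : ℤ} {x : ℝ}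
    (hc : Cl lo hi m k ∨ Cl lo hi m k') (h : lam ^ e * x ∈ Icc (lo k) (hi k))
    (h' : lam ^ e' * x ∈ Icc (lo k') (hi k')) (hb : |e' - e| ≤ 4 * 3 ^ m)
    (hne : e ≠ e' ∨ k ≠ k') : False := by
  rcases hc with hc | hc
  · refine hc k' (e' - e) (by push_cast; exact hb) ?_ _ h ?_
    · rcases hne with h1 | h1
      · exact Or.inl (sub_ne_zero.mpr h1.symm)
      · exact Or.inr h1
    · rw [← mul_assoc, ← zpow_add₀ lam_pos.ne', sub_add_cancel]
      exact h'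
  · refine hc k (e - e') (by push_cast; rw [abs_sub_comm]; exact hb) ?_ _ h' ?_
    · rcases hne with h1 | h1
      · exact Or.inl (sub_ne_zero.mpr h1)
      · exact Or.inr h1.symm
    · rw [← mul_assoc, ← zpow_add₀ lam_pos.ne', sub_add_cancel]
      exact h

theorem p3_le {i j : ℕ} (h : i ≤ j) : (3 : ℤ) ^ i ≤ 3 ^ j := pow_le_pow_right₀ (by norm_num) h

theorem p3_lt {i j : ℕ} (h : i < j) : 3 * (3 : ℤ) ^ i ≤ 3 ^ j := by
  rw [← pow_succ']; exact p3_le h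

theorem p3_pos (i : ℕ) : (0 : ℤ) < 3 ^ i := by positivity

theorem p3_ne {i j k : ℕ} (h : j ≠ i ∨ k ≠ i) : (3 : ℤ) ^ j + 3 ^ i ≠ 2 * 3 ^ k := by
  intro he
  have hi := p3_pos i
  have hj := p3_pos j
  have hk := p3_pos k
  rcases lt_trichotomy k i with h1 | h1 | h1
  · have := p3_lt h1; omega
  · subst h1
    rcases lt_trichotomy j k with h2 | h2 | h2
    · have := p3_lt h2; omega
    · omega
    · have := p3_lt h2; omega
  · have a1 := p3_lt h1
    rcases lt_trichotomy j k with h2 | h2 | h2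
    · have := p3_lt h2; omega
    · subst h2; omega
    · have := p3_lt h2; omega

theorem store {ν : Type} {lo hi : ν → ℝ} (hF : Fam lo hi) (R : ℕ → ℝ) (hRi : ∀ i : ℕ, (i : ℝ) ≤ R i)
    (hCl : ∀ i k, R i ≤ lo k → Cl lo hi i k) (c : ℕ) (hc1 : 1 ≤ c) (hc2 : c ≤ 2)
    (P : ℕ → ν → Pm) (hP : ∀ i, Sm lo hi (P i))
    (hPR : ∀ i k, R i ≤ lo k → ∀ x,
      |D 2 (P i k) x| ≤ (lam ^ (2 * 3 ^ i))⁻¹ / (i + 1) / lo k ^ 2) :
    ∃ g : Pm, StrictMono g ∧ OC g 1 0 ∧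
      (∀ i k, R i ≤ lo k → ∀ x ∈ Icc (lam ^ (c * 3 ^ i) * lo k) (lam ^ (c * 3 ^ i) * hi k),
        g x = cj (c * 3 ^ i) (P i k) x) ∧
      ∀ x, (∀ i k, R i ≤ lo k →
        x ∉ Icc (lam ^ (c * 3 ^ i) * lo k) (lam ^ (c * 3 ^ i) * hi k)) → g x = x := by
  obtain ⟨hF1, hF2, -⟩ := hF
  have hl1 : ∀ n : ℕ, 1 ≤ lam ^ n := fun n => one_le_pow₀ one_le_lam
  have hlp : ∀ n : ℕ, 0 < lam ^ n := fun n => pow_pos lam_pos n
  obtain ⟨g, h1, h2, h3, h4⟩ := exists_glue (J := {p : ℕ × ν // R p.1 ≤ lo p.2})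
    (fun j => lam ^ (c * 3 ^ j.1.1) * lo j.1.2) (fun j => lam ^ (c * 3 ^ j.1.1) * hi j.1.2)
    (fun j => cj (c * 3 ^ j.1.1) (P j.1.1 j.1.2))
    (fun j => by
      obtain ⟨a1, a2, a3⟩ := hF1 j.1.2
      have hp := hlp (c * 3 ^ j.1.1)
      refine ⟨mul_pos hp a1, mul_le_mul_of_nonneg_left a2 hp.le, ?_⟩
      have := mul_le_mul_of_nonneg_left a3 hp.le
      linarith)
    (fun T => by
      have hfin : ((Set.Iic ⌈T⌉₊) ×ˢ {k | lo k ≤ T}).Finite := (Set.finite_Iic _).prod (hF2 T)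
      refine (hfin.preimage Subtype.val_injective.injOn).subset ?_
      intro j hj
      have a1 := (hF1 j.1.2).1
      have a2 : lo j.1.2 ≤ T := by
        have h5 := hl1 (c * 3 ^ j.1.1)
        have h6 : lam ^ (c * 3 ^ j.1.1) * lo j.1.2 ≤ T := hj
        nlinarith
      refine ⟨?_, a2⟩
      have a3 : (j.1.1 : ℝ) ≤ ⌈T⌉₊ := ((hRi _).trans j.2).trans (a2.trans (Nat.le_ceil T))
      exact_mod_cast a3)
    (by
      rintro ⟨⟨i, k⟩, hik⟩ ⟨⟨i', k'⟩, hik'⟩ hne x hx hx'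
      have e0 : (SL ^ 0) x = x := by simp
      rw [← e0, mem_scaled] at hx hx'
      have hi := p3_pos i
      have hi' := p3_pos i'
      have hc' : (c : ℤ) = 1 ∨ (c : ℤ) = 2 := by omega
      refine sep (m := max i i') ?_ hx hx' ?_ ?_
      · rcases le_total i i' with h | h
        · rw [max_eq_right h]; exact Or.inr (hCl i' k' hik')
        · rw [max_eq_left h]; exact Or.inl (hCl i k hik)
      · have b1 := p3_le (le_max_left i i')
        have b2 := p3_le (le_max_right i i')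
        push_cast
        rw [abs_le]
        rcases hc' with h | h <;> rw [h] <;> constructor <;> linarith
      · by_cases hii : i = i'
        · subst hii
          refine Or.inr fun h => hne ?_
          subst h
          rfl
        · refine Or.inl ?_
          push_cast
          rcases lt_or_gt_of_ne hii with h | h
          · have := p3_lt h
            rcases hc' with h | h <;> rw [h] <;> omega
          · have := p3_lt h
            rcases hc' with h | h <;> rw [h] <;> omega)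
    (by
      refine ⟨fun j => ⟨cj_G2 _ ((hP _).1 _).1, cj_supp _ ((hP _).1 _).2⟩, fun ε hε => ?_⟩
      have hch : ∀ i : ℕ, ∃ T, ∀ k, T ≤ lo k → ∀ x,
          |D 2 (P i k) x| ≤ ε * (lam ^ (c * 3 ^ i))⁻¹ / lo k ^ 2 :=
        fun i => (hP i).2 _ (mul_pos hε (inv_pos.mpr (hlp _)))
      choose T hT using hch
      obtain ⟨B, hB⟩ := ((Set.finite_Iic ⌈1 / ε⌉₊).image
        (fun i => lam ^ (c * 3 ^ i) * T i)).bddAbove
      refine ⟨B, ?_⟩
      rintro ⟨⟨i, k⟩, hik⟩ hB' x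
      dsimp only at hik hB' ⊢
      have hp := hlp (c * 3 ^ i)
      have hlo := (hF1 k).1
      have hkey : |D 2 (P i k) ((lam ^ (c * 3 ^ i))⁻¹ * x)| ≤
          ε * (lam ^ (c * 3 ^ i))⁻¹ / lo k ^ 2 := by
        by_cases hi : i ≤ ⌈1 / ε⌉₊
        · apply hT
          have a1 : lam ^ (c * 3 ^ i) * T i ≤ B := hB ⟨i, hi, rfl⟩
          exact le_of_mul_le_mul_left (a1.trans hB') hp
        · refine (hPR i k hik _).trans ?_
          apply div_le_div_of_nonneg_right _ (by positivity)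
          have a1 : 1 / ε ≤ (i : ℝ) + 1 := by
            have a2 : ((⌈1 / ε⌉₊ : ℕ) : ℝ) ≤ i := by exact_mod_cast (not_le.mp hi).le
            linarith [Nat.le_ceil (1 / ε)]
          have a3 : (lam ^ (2 * 3 ^ i))⁻¹ ≤ (lam ^ (c * 3 ^ i))⁻¹ :=
            inv_anti₀ hp (pow_le_pow_right₀ one_le_lam (Nat.mul_le_mul_right _ hc2))
          have a4 : 1 ≤ ε * ((i : ℝ) + 1) := by
            rw [div_le_iff₀ hε] at a1; linarith
          rw [div_le_iff₀ (by positivity)]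
          have a5 : 0 < (lam ^ (c * 3 ^ i))⁻¹ := inv_pos.mpr hp
          nlinarith
      rw [cj_D2 _ ((hP _).1 _).1, abs_mul, abs_of_pos (inv_pos.mpr hp)]
      refine (mul_le_mul_of_nonneg_left hkey (inv_pos.mpr hp).le).trans (le_of_eq ?_)
      field_simp)
  exact ⟨g, h1, h2, fun i k hik x hx => h3 ⟨(i, k), hik⟩ x hx,
    fun x hx => h4 x fun j => hx j.1.1 j.1.2 j.2⟩

theorem agree {A T : Pm} {U : Set ℝ} (h : ∀ x ∈ U, A x = T x) (hT : ∀ x, T x ∈ U ↔ x ∈ U) :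
    ∀ x ∈ U, A⁻¹ x = T⁻¹ x ∧ T⁻¹ x ∈ U := by
  intro x hx
  have h1 : T⁻¹ x ∈ U := by rw [← hT]; simpa using hx
  refine ⟨?_, h1⟩
  rw [Equiv.Perm.inv_eq_iff_eq, h _ h1]
  simp

theorem fix_inv {B : Pm} {x : ℝ} (h : B x = x) : B⁻¹ x = x := by
  rw [Equiv.Perm.inv_eq_iff_eq, h]

theorem cm_apply (A B : Pm) (x : ℝ) : cm A B x = A (B (A⁻¹ (B⁻¹ x))) := rfl

theorem conj_piece {g f : Pm} {a b : ℝ} (s : ℕ) (hf : G2 f) (hs : Supp f a b)
    (h : ∀ x ∈ Icc a b, g x = f x) :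
    ∀ x, (SL ^ s) x ∈ Icc a b → (SL ^ s) (((SL ^ s)⁻¹ * g * SL ^ s)⁻¹ x) ∈ Icc a b := by
  intro x hx
  have h1 := agree h (presv hf.2 hs) _ hx
  have e : (SL ^ s) (((SL ^ s)⁻¹ * g * SL ^ s)⁻¹ x) = g⁻¹ ((SL ^ s) x) := by
    simp [mul_inv_rev, Equiv.Perm.mul_apply]
  rw [e, h1.1]
  exact h1.2

end Absorb

open Absorb in
theorem absorb : AbsStmt := by
  intro ν lo hi P Q hF hP hQ
  have hlp : ∀ n : ℕ, 0 < lam ^ n := fun n => pow_pos lam_pos n
  have hch : ∀ i : ℕ, ∃ R : ℝ, (i : ℝ) ≤ R ∧ ∀ k, R ≤ lo k → Cl lo hi i k ∧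
      (∀ x, |D 2 (P i k) x| ≤ (lam ^ (2 * 3 ^ i))⁻¹ / (i + 1) / lo k ^ 2) ∧
      (∀ x, |D 2 (Q i k) x| ≤ (lam ^ (2 * 3 ^ i))⁻¹ / (i + 1) / lo k ^ 2) := by
    intro i
    have hε : 0 < (lam ^ (2 * 3 ^ i))⁻¹ / ((i : ℝ) + 1) :=
      div_pos (inv_pos.mpr (hlp _)) (by positivity)
    obtain ⟨R1, h1⟩ := hF.2.2 (4 * 3 ^ i)
    obtain ⟨R2, h2⟩ := (hP i).2 _ hε
    obtain ⟨R3, h3⟩ := (hQ i).2 _ hε
    refine ⟨max (max i R1) (max R2 R3), le_max_of_le_left (le_max_left _ _), fun k hk => ?_⟩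
    simp only [max_le_iff] at hk
    exact ⟨fun k' => h1 k k' hk.1.2, h2 k hk.2.1, h3 k hk.2.2⟩
  choose R hRi hR using hch
  obtain ⟨b1, m1, o1, in1, out1⟩ := store hF R hRi (fun i k h => (hR i k h).1) 1 le_rfl
    (by norm_num) P hP (fun i k h => (hR i k h).2.1)
  obtain ⟨b2, m2, o2, in2, out2⟩ := store hF R hRi (fun i k h => (hR i k h).1) 2 (by norm_num)
    le_rfl Q hQ (fun i k h => (hR i k h).2.2)
  simp only [one_mul] at in1 out1
  refine ⟨b1, b2, m1, m2, o1, o2, fun i => ?_⟩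
  filter_upwards [eventually_ge_atTop (2 * R i), eventually_ge_atTop 0] with y hy hy0
  unfold Cw
  set A := (SL ^ 3 ^ i)⁻¹ * b1 * SL ^ 3 ^ i with hA
  set B := (SL ^ (2 * 3 ^ i))⁻¹ * b2 * SL ^ (2 * 3 ^ i) with hB
  have hpiece : ∀ (s : ℕ) (g f : Pm) (k : ν),
      (∀ x ∈ Icc (lam ^ s * lo k) (lam ^ s * hi k), g x = cj s f x) →
      ∀ x ∈ Icc (lo k) (hi k), ((SL ^ s)⁻¹ * g * SL ^ s) x = f x := by
    intro s g f k h x hx
    have h1 : (SL ^ s) x ∈ Icc (lam ^ s * lo k) (lam ^ s * hi k) := by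
      rw [mem_scaled]; simpa using hx
    rw [Equiv.Perm.mul_apply, Equiv.Perm.mul_apply, h _ h1]
    unfold cj
    simp [Equiv.Perm.mul_apply]
  have hout : ∀ (s : ℕ) (g : Pm) (x : ℝ), g ((SL ^ s) x) = (SL ^ s) x →
      ((SL ^ s)⁻¹ * g * SL ^ s) x = x := by
    intro s g x h
    rw [Equiv.Perm.mul_apply, Equiv.Perm.mul_apply, h]
    simp
  have hbig : ∀ (e : ℤ) (k : ν), 0 ≤ e → lam ^ e * y ∈ Icc (lo k) (hi k) → R i ≤ lo k := by
    intro e k he h
    have h1 : 1 ≤ lam ^ e := one_le_zpow₀ one_le_lam he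
    have h2 := (hF.1 k).2.2
    have h3 := h.2
    nlinarith
  constructor
  · intro k hk
    have hRk : R i ≤ lo k := hbig 0 k le_rfl (by simpa using hk)
    have eA := hpiece _ b1 (P i k) k (in1 i k hRk)
    have eB := hpiece _ b2 (Q i k) k (in2 i k hRk)
    have pP := presv ((hP i).1 k).1.2 ((hP i).1 k).2
    have pQ := presv ((hQ i).1 k).1.2 ((hQ i).1 k).2
    obtain ⟨s1, s2⟩ := agree eB pQ y hk
    obtain ⟨s3, s4⟩ := agree eA pP _ s2
    rw [cm_apply, cm_apply, s1, s3, eB _ s4, eA _ ((pQ _).mpr s4)]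
  · intro hk
    -- pieces of the two conjugates of different levels do not meet
    have hsep : ∀ (i1 i2 : ℕ) (k1 k2 : ν) (x : ℝ), R i1 ≤ lo k1 → R i2 ≤ lo k2 →
        (i1 ≠ i ∨ i2 ≠ i) → (i1 ≤ i → i2 ≤ i → R i ≤ lo k1 ∨ R i ≤ lo k2) →
        (SL ^ 3 ^ i) x ∈ Icc (lam ^ 3 ^ i1 * lo k1) (lam ^ 3 ^ i1 * hi k1) →
        (SL ^ (2 * 3 ^ i)) x ∈ Icc (lam ^ (2 * 3 ^ i2) * lo k2) (lam ^ (2 * 3 ^ i2) * hi k2) →
        False := by
      intro i1 i2 k1 k2 x r1 r2 hne hsm h1 h2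
      rw [mem_scaled] at h1 h2
      have q0 := p3_pos i
      have q1 := p3_pos i1
      have q2 := p3_pos i2
      have b0 := p3_le (le_max_left i (max i1 i2))
      have b1 := p3_le (le_max_of_le_right (le_max_left i1 i2) : i1 ≤ max i (max i1 i2))
      have b2 := p3_le (le_max_of_le_right (le_max_right i1 i2) : i2 ≤ max i (max i1 i2))
      refine sep (m := max i (max i1 i2)) ?_ h1 h2 ?_ (Or.inl ?_)
      · rcases le_total (max i1 i2) i with h | h
        · rw [max_eq_left h]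
          rcases hsm ((le_max_left _ _).trans h) ((le_max_right _ _).trans h) with h' | h'
          · exact Or.inl (hR i k1 h').1
          · exact Or.inr (hR i k2 h').1
        · rw [max_eq_right h]
          rcases le_total i1 i2 with h' | h'
          · rw [max_eq_right h']; exact Or.inr (hR i2 k2 r2).1
          · rw [max_eq_left h']; exact Or.inl (hR i1 k1 r1).1
      · push_cast
        rw [abs_le]
        constructor <;> linarith
      · push_cast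
        have := p3_ne (i := i) (j := i1) (k := i2) hne
        omega
    rw [cm_apply]
    by_cases hyB : ∃ i2 k2, R i2 ≤ lo k2 ∧
        (SL ^ (2 * 3 ^ i)) y ∈ Icc (lam ^ (2 * 3 ^ i2) * lo k2) (lam ^ (2 * 3 ^ i2) * hi k2)
    · obtain ⟨i2, k2, r2, h2⟩ := hyB
      have hne : i2 ≠ i := by
        rintro rfl
        rw [mem_scaled] at h2
        exact hk k2 (by simpa using h2)
      have hsm : i2 ≤ i → R i ≤ lo k2 := by
        intro h
        rw [mem_scaled] at h2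
        refine hbig _ k2 ?_ h2
        have := p3_le h
        push_cast
        linarith
      have hAid : ∀ x, (SL ^ (2 * 3 ^ i)) x ∈
          Icc (lam ^ (2 * 3 ^ i2) * lo k2) (lam ^ (2 * 3 ^ i2) * hi k2) → A x = x := by
        intro x hx
        refine hout _ b1 x (out1 _ fun i1 k1 r1 h1 => ?_)
        exact hsep i1 i2 k1 k2 x r1 r2 (Or.inr hne) (fun _ h => Or.inr (hsm h)) h1 hx
      have h3 := conj_piece (2 * 3 ^ i) (cj_G2 _ ((hQ i2).1 k2).1) (cj_supp _ ((hQ i2).1 k2).2)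
        (in2 i2 k2 r2) y h2
      rw [fix_inv (hAid _ h3)]
      have h4 : B (B⁻¹ y) = y := by simp
      rw [h4]
      exact hAid y h2
    · push Not at hyB
      have hBy : B y = y := hout _ b2 y (out2 _ hyB)
      rw [fix_inv hBy]
      by_cases hyA : ∃ i1 k1, R i1 ≤ lo k1 ∧
          (SL ^ 3 ^ i) y ∈ Icc (lam ^ 3 ^ i1 * lo k1) (lam ^ 3 ^ i1 * hi k1)
      · obtain ⟨i1, k1, r1, h1⟩ := hyA
        have hne : i1 ≠ i := by
          rintro rfl
          rw [mem_scaled] at h1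
          exact hk k1 (by simpa using h1)
        have hsm : i1 ≤ i → R i ≤ lo k1 := by
          intro h
          rw [mem_scaled] at h1
          refine hbig _ k1 ?_ h1
          have := p3_le h
          push_cast
          linarith
        have h3 := conj_piece (3 ^ i) (cj_G2 _ ((hP i1).1 k1).1) (cj_supp _ ((hP i1).1 k1).2)
          (in1 i1 k1 r1) y h1
        have h4 : B (A⁻¹ y) = A⁻¹ y := by
          refine hout _ b2 _ (out2 _ fun i2 k2 r2 h2 => ?_)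
          exact hsep i1 i2 k1 k2 _ r1 r2 (Or.inl hne) (fun h _ => Or.inl (hsm h)) h3 h2
        rw [h4]
        simp
      · push Not at hyA
        have hAy : A y = y := hout _ b1 y (out1 _ hyA)
        rw [fix_inv hAy, hBy, hAy]

end Pool.Agent.H113Z.Dist
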